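import Pool.Agent.H96.KX.Targets

namespace Pool.Agent.H78.KX

open Finset Pool.Agent.H96.KX

theorem sum_cons {X M : Type} [Fintype X] [AddCommMonoid M] {N : ℕ}
    (F : (Fin (N + 1) → X) → M) :
    ∑ x, F x = ∑ u : X, ∑ x' : Fin N → X, F (Fin.cons u x') := by
  rw [← (Fin.consEquiv (fun _ => X)).sum_comp, Fintype.sum_prod_type]
  rfl

theorem jun_cons {Z : Type} [Fintype Z] [DecidableEq Z] {N : ℕ} (o : Option Z)
    (τ : Fin N → Option Z) (z : Fin (N + 1) → Z) :
    jun (Fin.cons o τ : Fin (N + 1) → Option Z) z = fac o (z 0) * jun τ (Fin.tail z) := by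
  unfold jun
  rw [Fin.prod_univ_succ]
  rfl

theorem jun_pt {H U Z : Type} [Fintype Z] [DecidableEq Z] (h : H → U → Z) {N : ℕ}
    (a : H) (a' : Fin N → H) (x : Fin (N + 1) → U) (z : Fin (N + 1) → Z) :
    jun (fun i => some (h ((Fin.cons a a' : Fin (N + 1) → H) i) (x i))) z =
      fac (some (h a (x 0))) (z 0) *
        jun (fun i => some (h (a' i) (Fin.tail x i))) (Fin.tail z) := by
  unfold jun
  rw [Fin.prod_univ_succ]
  rfl

theorem psz_cons {Z : Type} {N : ℕ} (o : Option Z) (τ : Fin N → Option Z) :
    psz (Fin.cons o τ : Fin (N + 1) → Option Z) = psz (fun _ : Fin 1 => o) + psz τ := by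
  unfold psz
  rw [Finset.card_filter, Finset.card_filter, Finset.card_filter, Fin.sum_univ_succ]
  simp

theorem psz_none {Z : Type} : psz (fun _ : Fin 1 => (none : Option Z)) = 0 := by
  simp [psz]

theorem psz_some {Z : Type} (z : Z) : psz (fun _ : Fin 1 => some z) = 1 := by
  simp [psz]

theorem pf_JUN (hO : S_ONEC) : S_JUN := by
  classical
  intro H U Z _ _ _ _ _ _ _ h hh N
  have hQ : (0 : ℝ) < Fintype.card Z := by exact_mod_cast Fintype.card_pos
  have hH : (0 : ℝ) < Fintype.card H := by exact_mod_cast Fintype.card_pos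
  induction N with
  | zero =>
    intro f hf
    refine ⟨fun _ _ => f (fun i => i.elim0), fun _ _ => hf _, ?_, ?_⟩
    · intro x z
      simp only [rho, jun, Finset.univ_eq_empty, Finset.prod_empty, mul_one]
      rw [Fintype.sum_unique, Fintype.sum_unique]
      exact congrArg f (Subsingleton.elim _ _)
    · intro s hs
      have h0 : ∀ τ : Fin 0 → Option Z, psz τ = 0 := fun τ => by simp [psz]
      rw [Fintype.sum_unique, Fintype.sum_unique, Fintype.sum_unique]
      simp only [h0, pow_zero, one_mul]
      have h1 : (fun i => i.elim0 : Fin 0 → H) = default := Subsingleton.elim _ _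
      exact le_of_eq (by rw [h1])
  | succ N ih =>
    intro f hf
    let V : (Fin N → H) → U → Z → ℝ := fun a' u θ =>
      (Fintype.card Z : ℝ) * ∑ a, if h a u = θ then f (Fin.cons a a') else 0
    have hV0 : ∀ a' u θ, 0 ≤ V a' u θ := by
      intro a' u θ
      refine mul_nonneg hQ.le (Finset.sum_nonneg fun a _ => ?_)
      split_ifs
      · exact hf _
      · exact le_refl _
    have hmin : ∀ (a' : Fin N → H) (u : U), ∃ θ0, ∀ θ, V a' u θ0 ≤ V a' u θ :=
      fun a' u => Finite.exists_min (V a' u)
    choose θ0 hθ0 using hmin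
    let mu : (Fin N → H) → U → ℝ := fun a' u => V a' u (θ0 a' u)
    let G : U → Option Z → (Fin N → H) → ℝ := fun u o a' =>
      match o with
      | none => mu a' u
      | some θ => (V a' u θ - mu a' u) / (Fintype.card Z : ℝ)
    have hG : ∀ u o a', 0 ≤ G u o a' := by
      intro u o a'
      cases o with
      | none => exact hV0 _ _ _
      | some θ => exact div_nonneg (sub_nonneg.2 (hθ0 a' u θ)) hQ.le
    have hih := fun u o => ih (G u o) (hG u o)
    choose w' hw0 hw1 hw2 using hih
    have hdec : ∀ (a' : Fin N → H) (u : U) (ζ : Z), V a' u ζ = ∑ o, G u o a' * fac o ζ := by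
      intro a' u ζ
      rw [Fintype.sum_option]
      show V a' u ζ = mu a' u * 1 + ∑ θ, (V a' u θ - mu a' u) / (Fintype.card Z : ℝ) *
        (if ζ = θ then (Fintype.card Z : ℝ) else 0)
      rw [Finset.sum_eq_single ζ]
      · rw [if_pos rfl]
        field_simp
        ring
      · intro b _ hb
        rw [if_neg (fun hc => hb hc.symm), mul_zero]
      · intro hc; exact absurd (mem_univ _) hc
    refine ⟨fun x τ => w' (x 0) (τ 0) (Fin.tail x) (Fin.tail τ), fun x τ => hw0 _ _ _ _, ?_, ?_⟩
    · intro x z
      have hL : rho h f x z = ∑ a' : Fin N → H, V a' (x 0) (z 0) *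
          jun (fun i => some (h (a' i) (Fin.tail x i))) (Fin.tail z) := by
        unfold rho
        rw [sum_cons, Finset.sum_comm]
        refine Finset.sum_congr rfl fun a' _ => ?_
        show _ = ((Fintype.card Z : ℝ) * ∑ a, if h a (x 0) = z 0 then f (Fin.cons a a') else 0) * _
        rw [Finset.mul_sum, Finset.sum_mul]
        refine Finset.sum_congr rfl fun a _ => ?_
        rw [jun_pt]
        show _ * ((if z 0 = h a (x 0) then (Fintype.card Z : ℝ) else 0) * _) = _
        by_cases hc : h a (x 0) = z 0
        · rw [if_pos hc.symm, if_pos hc]; ring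
        · rw [if_neg (fun h' => hc h'.symm), if_neg hc]; ring
      rw [hL]
      calc ∑ a' : Fin N → H, V a' (x 0) (z 0) *
            jun (fun i => some (h (a' i) (Fin.tail x i))) (Fin.tail z)
          = ∑ a' : Fin N → H, ∑ o, (G (x 0) o a' * fac o (z 0)) *
            jun (fun i => some (h (a' i) (Fin.tail x i))) (Fin.tail z) := by
            refine Finset.sum_congr rfl fun a' _ => ?_
            rw [hdec, Finset.sum_mul]
        _ = ∑ o, fac o (z 0) * rho h (G (x 0) o) (Fin.tail x) (Fin.tail z) := by
            rw [Finset.sum_comm]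
            refine Finset.sum_congr rfl fun o _ => ?_
            unfold rho
            rw [Finset.mul_sum]
            refine Finset.sum_congr rfl fun a' _ => ?_
            ring
        _ = ∑ τ : Fin (N + 1) → Option Z,
            w' (x 0) (τ 0) (Fin.tail x) (Fin.tail τ) * jun τ z := by
            rw [sum_cons]
            refine Finset.sum_congr rfl fun o _ => ?_
            rw [hw1, Finset.mul_sum]
            refine Finset.sum_congr rfl fun τ _ => ?_
            rw [jun_cons, Fin.cons_zero, Fin.tail_cons]
            ring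
    · intro s hs
      set K : ℝ := 1 + s * Fintype.card Z / Fintype.card H with hK
      set c : ℝ := (Fintype.card U : ℝ) * Fintype.card H with hc
      have hK0 : 0 ≤ K := by
        rw [hK]; positivity
      have hc0 : 0 ≤ c := by
        rw [hc]; positivity
      have hcK : c * K = c + s * ((Fintype.card U : ℝ) * Fintype.card Z) := by
        rw [hK, hc]; field_simp
      have hstep : ∀ a' : Fin N → H,
          ∑ u, ∑ o, s ^ psz (fun _ : Fin 1 => o) * (G u o a') ^ 2 ≤
            c * K * ∑ a, f (Fin.cons a a') ^ 2 := by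
        intro a'
        obtain ⟨h1, h2⟩ := hO H U Z h hh (fun a => f (Fin.cons a a')) (V a') (mu a')
          (fun a => hf _) (fun u θ => rfl) (fun u θ => hθ0 a' u θ) (fun u => ⟨θ0 a' u, rfl⟩)
        have h3 : ∑ u, ∑ o, s ^ psz (fun _ : Fin 1 => o) * (G u o a') ^ 2 =
            ∑ u, mu a' u ^ 2 + s * ∑ u, ∑ θ, ((V a' u θ - mu a' u) / Fintype.card Z) ^ 2 := by
          rw [Finset.mul_sum, ← Finset.sum_add_distrib]
          refine Finset.sum_congr rfl fun u _ => ?_
          rw [Fintype.sum_option, psz_none, pow_zero, one_mul, Finset.mul_sum]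
          congr 1
          refine Finset.sum_congr rfl fun θ _ => ?_
          rw [psz_some, pow_one]
        rw [h3, hcK, add_mul]
        refine add_le_add h1 ?_
        rw [mul_assoc]
        exact mul_le_mul_of_nonneg_left h2 hs
      calc ∑ x : Fin (N + 1) → U, ∑ τ : Fin (N + 1) → Option Z,
            s ^ psz τ * (w' (x 0) (τ 0) (Fin.tail x) (Fin.tail τ)) ^ 2
          = ∑ u, ∑ o, s ^ psz (fun _ : Fin 1 => o) *
              ∑ x' : Fin N → U, ∑ τ' : Fin N → Option Z, s ^ psz τ' * (w' u o x' τ') ^ 2 := by
            rw [sum_cons]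
            refine Finset.sum_congr rfl fun u _ => ?_
            have h1 : ∀ x' : Fin N → U, ∑ τ : Fin (N + 1) → Option Z, s ^ psz τ *
                (w' ((Fin.cons u x' : Fin (N + 1) → U) 0) (τ 0)
                  (Fin.tail (Fin.cons u x' : Fin (N + 1) → U)) (Fin.tail τ)) ^ 2 =
                ∑ o, ∑ τ' : Fin N → Option Z, s ^ psz (fun _ : Fin 1 => o) *
                  (s ^ psz τ' * (w' u o x' τ') ^ 2) := by
              intro x'
              rw [sum_cons]
              refine Finset.sum_congr rfl fun o _ => Finset.sum_congr rfl fun τ' _ => ?_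
              rw [psz_cons, pow_add, Fin.cons_zero, Fin.cons_zero, Fin.tail_cons, Fin.tail_cons]
              ring
            rw [Finset.sum_congr rfl fun x' _ => h1 x', Finset.sum_comm]
            refine Finset.sum_congr rfl fun o _ => ?_
            rw [Finset.mul_sum]
            refine Finset.sum_congr rfl fun x' _ => ?_
            rw [Finset.mul_sum]
        _ ≤ ∑ u, ∑ o, s ^ psz (fun _ : Fin 1 => o) *
              (K ^ N * c ^ N * ∑ a', (G u o a') ^ 2) := by
            refine Finset.sum_le_sum fun u _ => Finset.sum_le_sum fun o _ => ?_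
            exact mul_le_mul_of_nonneg_left (hw2 u o s hs) (pow_nonneg hs _)
        _ = K ^ N * c ^ N * ∑ a' : Fin N → H,
              ∑ u, ∑ o, s ^ psz (fun _ : Fin 1 => o) * (G u o a') ^ 2 := by
            have h1 : ∑ a' : Fin N → H, ∑ u, ∑ o, s ^ psz (fun _ : Fin 1 => o) * (G u o a') ^ 2 =
                ∑ u, ∑ o, ∑ a' : Fin N → H, s ^ psz (fun _ : Fin 1 => o) * (G u o a') ^ 2 := by
              rw [Finset.sum_comm]
              refine Finset.sum_congr rfl fun u _ => ?_
              rw [Finset.sum_comm]
            rw [h1, Finset.mul_sum]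
            refine Finset.sum_congr rfl fun u _ => ?_
            rw [Finset.mul_sum]
            refine Finset.sum_congr rfl fun o _ => ?_
            rw [← Finset.mul_sum]
            ring
        _ ≤ K ^ N * c ^ N * ∑ a' : Fin N → H, c * K * ∑ a, f (Fin.cons a a') ^ 2 := by
            refine mul_le_mul_of_nonneg_left (Finset.sum_le_sum fun a' _ => hstep a') ?_
            positivity
        _ = K ^ (N + 1) * c ^ (N + 1) * ∑ a : Fin (N + 1) → H, f a ^ 2 := by
            rw [sum_cons (fun a => f a ^ 2), Finset.sum_comm, ← Finset.mul_sum]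
            ring

end Pool.Agent.H78.KX
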