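import Pool.Agent.H96.KX.Targets2

namespace Pool.Agent.H78.KX

open Finset Pool.Agent.H96.KX
open Pool.Agent.H1.LP (Clause viol Relax)

/-- the clause `C` with `r` more literals -/
def ext {n r : ℕ} (C : Clause n) (s : Fin r → Bool) : Clause (n + r) :=
  C.image (fun l => (Fin.castAdd r l.1, l.2)) ∪ univ.image (fun t => (Fin.natAdd n t, s t))

theorem ext_card {n r : ℕ} (C : Clause n) (s : Fin r → Bool) :
    (ext C s).card = C.card + r := by
  unfold ext
  rw [card_union_of_disjoint, card_image_of_injective, card_image_of_injective, card_univ,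
    Fintype.card_fin]
  · intro t t' h
    simpa using congrArg Prod.fst h
  · intro l l' h
    have h1 := congrArg Prod.fst h
    have h2 := congrArg Prod.snd h
    simp only [Fin.castAdd_inj] at h1
    exact Prod.ext h1 h2
  · rw [Finset.disjoint_left]
    intro a ha hb
    simp only [mem_image, mem_univ, true_and] at ha hb
    obtain ⟨l, _, rfl⟩ := ha
    obtain ⟨t, ht⟩ := hb
    have := congrArg (fun q => (Prod.fst q).val) ht
    simp only [Fin.val_natAdd, Fin.val_castAdd] at this
    omega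

theorem ext_card' {n r : ℕ} (C : Clause n) (s : Fin r → Bool) :
    ((ext C s).image Prod.fst).card = (C.image Prod.fst).card + r := by
  have h : (ext C s).image Prod.fst =
      (C.image Prod.fst).image (Fin.castAdd r) ∪ univ.image (Fin.natAdd n) := by
    unfold ext
    rw [image_union, image_image, image_image, image_image]
    rfl
  have hi1 : Function.Injective (Fin.castAdd r : Fin n → Fin (n + r)) := fun l l' h => by
    simpa using h
  have hi2 : Function.Injective (Fin.natAdd n : Fin r → Fin (n + r)) := fun l l' h => by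
    simpa using h
  rw [h, card_union_of_disjoint, card_image_of_injective (C.image Prod.fst) hi1,
    card_image_of_injective univ hi2, card_univ, Fintype.card_fin]
  rw [Finset.disjoint_left]
  intro a ha hb
  simp only [mem_image, mem_univ, true_and] at ha hb
  obtain ⟨i, _, rfl⟩ := ha
  obtain ⟨t, ht⟩ := hb
  have := congrArg Fin.val ht
  simp only [Fin.val_natAdd, Fin.val_castAdd] at this
  omega

theorem ext_sat {n r : ℕ} (C : Clause n) (s : Fin r → Bool) (x : Fin (n + r) → Bool) :
    (ext C s).Sat x ↔ C.Sat (fun i => x (Fin.castAdd r i)) ∨ ∃ t, x (Fin.natAdd n t) = s t := by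
  unfold Clause.Sat ext
  constructor
  · rintro ⟨l, hl, hx⟩
    rw [mem_union, mem_image, mem_image] at hl
    rcases hl with ⟨l', hl', rfl⟩ | ⟨t, _, rfl⟩
    · exact Or.inl ⟨l', hl', hx⟩
    · exact Or.inr ⟨t, hx⟩
  · rintro (⟨l, hl, hx⟩ | ⟨t, ht⟩)
    · exact ⟨_, mem_union_left _ (mem_image_of_mem _ hl), hx⟩
    · exact ⟨_, mem_union_right _ (mem_image_of_mem _ (mem_univ t)), ht⟩

/-- pairs -/
noncomputable def pe (m r : ℕ) : Fin (m * 2 ^ r) ≃ Fin m × (Fin r → Bool) :=
  finProdFinEquiv.symm.trans (Equiv.prodCongr (Equiv.refl _)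
    (Fintype.equivFinOfCardEq (by simp) : (Fin r → Bool) ≃ Fin (2 ^ r)).symm)

/-- the padded formula -/
noncomputable def pad {n m : ℕ} (r : ℕ) (phi : Fin m → Clause n) (i : Fin (m * 2 ^ r)) :
    Clause (n + r) :=
  ext (phi (pe m r i).1) (pe m r i).2

theorem sum_pad {n m r : ℕ} {M : Type} [AddCommMonoid M] (phi : Fin m → Clause n)
    (F : Clause (n + r) → M) :
    ∑ i, F (pad r phi i) = ∑ i, ∑ s : Fin r → Bool, F (ext (phi i) s) := by
  rw [← Fintype.sum_prod_type', ← (pe m r).sum_comp]
  rfl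

theorem viol_pad {n m r : ℕ} (phi : Fin m → Clause n) (x : Fin (n + r) → Bool) :
    viol (pad r phi) x = viol phi (fun i => x (Fin.castAdd r i)) := by
  classical
  unfold viol
  rw [Finset.card_filter, Finset.card_filter]
  have h := sum_pad (r := r) phi (fun C => if ¬ C.Sat x then 1 else 0)
  refine Eq.trans ?_ (Eq.trans h ?_)
  · refine Finset.sum_congr rfl fun i _ => ?_
    congr
  · refine Finset.sum_congr rfl fun i _ => ?_
    rw [Finset.sum_eq_single (fun t => !(x (Fin.natAdd n t)))]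
    · have : (ext (phi i) (fun t => !(x (Fin.natAdd n t)))).Sat x ↔
          (phi i).Sat (fun i => x (Fin.castAdd r i)) := by
        rw [ext_sat]
        constructor
        · rintro (h | ⟨t, ht⟩)
          · exact h
          · simp at ht
        · exact Or.inl
      simp only [this]
    · intro s _ hs
      rw [if_neg]
      rw [not_not, ext_sat]
      right
      by_contra hcon
      push Not at hcon
      apply hs
      funext t
      have := hcon t
      cases hx : x (Fin.natAdd n t) <;> cases hst : s t <;> simp_all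
    · intro h; exact absurd (mem_univ _) h

/-- the average of the losses of the padded clauses -/
theorem loss_avg {n r : ℕ} (P : Relax (n + r)) (C : Clause n) (y : Fin P.dim → ℝ) :
    ∑ k, ((∑ s : Fin r → Bool, P.w (ext C s) k) / 2 ^ r) * y k +
      (∑ s : Fin r → Bool, P.w0 (ext C s)) / 2 ^ r =
    (∑ s : Fin r → Bool, P.loss (ext C s) y) / 2 ^ r := by
  unfold Relax.loss
  rw [Finset.sum_add_distrib, add_div]
  congr 1
  rw [Finset.sum_comm, Finset.sum_div]
  refine Finset.sum_congr rfl fun k _ => ?_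
  rw [Finset.sum_div, Finset.sum_mul, Finset.sum_div]
  refine Finset.sum_congr rfl fun s _ => ?_
  ring

/-- the restriction of a relaxation -/
noncomputable def rest {n r : ℕ} (P : Relax (n + r)) : Relax n where
  cell := univ.filter (fun x => Fin.append x (fun _ : Fin r => false) ∈ P.cell)
  dim := P.dim
  size := P.size
  A := P.A
  b := P.b
  pt := fun x => P.pt (Fin.append x (fun _ => false))
  w := fun C k => (∑ s : Fin r → Bool, P.w (ext C s) k) / 2 ^ r
  w0 := fun C => (∑ s : Fin r → Bool, P.w0 (ext C s)) / 2 ^ r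
  feas := fun x hx i => P.feas _ (mem_filter.1 hx).2 i
  bdd := by
    intro x hx C
    rw [loss_avg, abs_div, abs_of_pos (by positivity : (0 : ℝ) < 2 ^ r), div_le_one (by positivity)]
    refine (Finset.abs_sum_le_sum_abs _ _).trans ?_
    refine (Finset.sum_le_sum fun s _ => P.bdd _ (mem_filter.1 hx).2 (ext C s)).trans ?_
    simp
  sound := by
    intro x hx C hC
    rw [loss_avg]
    refine div_nonpos_of_nonpos_of_nonneg (Finset.sum_nonpos fun s _ => ?_) (by positivity)
    refine P.sound _ (mem_filter.1 hx).2 (ext C s) ?_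
    rw [ext_sat]
    left
    simpa using hC

theorem refuted_pad {n r m M : ℕ} (P : Fin M → Relax (n + r)) (phi : Fin m → Clause n) (de de' : ℝ)
    (hd : de' ≤ de / 2 ^ r) (h : Refuted P (pad r phi) de) :
    Refuted (fun j => rest (P j)) phi de' := by
  obtain ⟨J, h1, h2, h3⟩ := h
  refine ⟨J, ?_, ?_, ?_⟩
  · intro j hj j' hj' hne
    have := h1 j hj j' hj' hne
    rw [Finset.disjoint_left] at this ⊢
    intro x hx hx'
    exact this (mem_filter.1 hx).2 (mem_filter.1 hx').2
  · intro x
    obtain ⟨j, hj, hx⟩ := h2 (Fin.append x (fun _ => false))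
    exact ⟨j, hj, mem_filter.2 ⟨mem_univ _, hx⟩⟩
  · intro j hj y hy
    have h4 := h3 j hj y hy
    rw [sum_pad phi (fun C => (P j).loss C y)] at h4
    refine hd.trans ?_
    have h5 : ∑ i, (rest (P j)).loss (phi i) y =
        (∑ i, ∑ s : Fin r → Bool, (P j).loss (ext (phi i) s) y) / 2 ^ r := by
      rw [Finset.sum_div]
      exact Finset.sum_congr rfl fun i _ => loss_avg (P j) (phi i) y
    rw [h5]
    exact div_le_div_of_nonneg_right h4 (by positivity)

theorem pf_PAD : S_PAD := by
  classical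
  intro w k ε c c' hwk hcc hH
  obtain ⟨r, rfl⟩ := Nat.exists_eq_add_of_le hwk
  obtain ⟨K, γ, hγ, n₀, hn₀⟩ := hH
  have hd : 0 < c - c' := sub_pos.2 hcc
  obtain ⟨N1, hN1⟩ := exists_nat_ge (c * r / (c - c'))
  obtain ⟨N2, hN2⟩ := exists_nat_ge ((γ + 1) * r / (γ / 2))
  refine ⟨K * 2 ^ r, γ / 2, by positivity, n₀ + r + N1 + N2, ?_⟩
  intro n hn
  obtain ⟨n1, rfl⟩ : ∃ n1, n = n1 + r := ⟨n - r, by omega⟩
  obtain ⟨Y, m, phi, hY, hphi, hmain⟩ := hn₀ n1 (by omega)
  have hA : c' * ((n1 + r : ℕ) : ℝ) ≤ c * n1 := by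
    have h1 : (N1 : ℝ) ≤ ((n1 + r : ℕ) : ℝ) := by exact_mod_cast (by omega : N1 ≤ n1 + r)
    have h2 : c * r ≤ ((n1 + r : ℕ) : ℝ) * (c - c') := (div_le_iff₀ hd).1 (hN1.trans h1)
    have h3 : ((n1 + r : ℕ) : ℝ) = n1 + r := by push_cast; ring
    rw [h3] at h2 ⊢
    nlinarith
  have hB : (γ + 1) * r ≤ ((n1 + r : ℕ) : ℝ) * (γ / 2) := by
    have h1 : (N2 : ℝ) ≤ ((n1 + r : ℕ) : ℝ) := by exact_mod_cast (by omega : N2 ≤ n1 + r)
    exact (div_le_iff₀ (by positivity)).1 (hN2.trans h1)
  have hC : (2 : ℝ) ^ (-(γ * n1)) ≤ (2 : ℝ) ^ (-(γ / 2 * ((n1 + r : ℕ) : ℝ))) / 2 ^ r := by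
    rw [le_div_iff₀ (by positivity), ← Real.rpow_natCast 2 r, ← Real.rpow_add (by norm_num)]
    refine Real.rpow_le_rpow_of_exponent_le (by norm_num) ?_
    have h3 : ((n1 + r : ℕ) : ℝ) = n1 + r := by push_cast; ring
    rw [h3] at hB ⊢
    nlinarith
  have hD : (2 : ℝ) ^ (-(γ * n1)) ≤ (2 : ℝ) ^ (-(γ / 2 * ((n1 + r : ℕ) : ℝ))) := by
    refine hC.trans (div_le_self (by positivity) ?_)
    exact one_le_pow₀ (by norm_num)
  refine ⟨Y, fun a => m a * 2 ^ r, fun a => pad r (phi a), hY, ?_, ?_⟩
  · intro a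
    obtain ⟨h1, h2, h3, h4⟩ := hphi a
    refine ⟨Nat.mul_pos h1 (by positivity), ?_, ?_, ?_⟩
    · calc m a * 2 ^ r ≤ K * n1 * 2 ^ r := Nat.mul_le_mul_right _ h2
        _ = K * 2 ^ r * n1 := by ring
        _ ≤ K * 2 ^ r * (n1 + r) := Nat.mul_le_mul_left _ (by omega)
    · intro i
      unfold pad
      exact ⟨by rw [ext_card, (h3 _).1], by rw [ext_card', (h3 _).2]⟩
    · intro x
      rw [viol_pad]
      refine le_trans (le_of_eq ?_) (h4 _)
      have h5 : (((m a * 2 ^ r : ℕ) : ℝ)) = m a * 2 ^ r := by push_cast; ring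
      rw [h5, pow_add]
      field_simp
  · intro M P hP
    have h1 := hmain M (fun j => rest (P j)) ?_
    · refine le_trans ?_ (h1.trans (mul_le_mul_of_nonneg_right hD (by positivity)))
      norm_cast
      refine Finset.card_le_card fun a ha => ?_
      rw [mem_filter] at ha ⊢
      exact ⟨ha.1, refuted_pad P (phi a) _ _ hC ha.2⟩
    · refine hP.trans (Real.rpow_le_rpow_of_exponent_le (by norm_num) hA)

end Pool.Agent.H78.KX
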