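import Pool.Agent.H96.KX.Targets

namespace Pool.Agent.H78.KX

open Finset Pool.Agent.H96.KX

theorem card_fiber {A B : Type} [AddCommGroup A] [AddCommGroup B] [Fintype A] [Fintype B]
    [DecidableEq B] (f : A →+ B) (hf : Function.Surjective f) (b : B) :
    (univ.filter (fun a => f a = b)).card * Fintype.card B = Fintype.card A := by
  have h1 : ∀ c : B, (univ.filter (fun a => f a = c)).card =
      (univ.filter (fun a => f a = b)).card := by
    intro c
    obtain ⟨u, hu⟩ := hf (b - c)
    refine Finset.card_bij (fun a _ => a + u) ?_ ?_ ?_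
    · intro a ha
      simp only [mem_filter, mem_univ, true_and] at ha ⊢
      rw [map_add, ha, hu]; abel
    · intro a _ a' _ h
      exact add_right_cancel h
    · intro a ha
      simp only [mem_filter, mem_univ, true_and] at ha
      refine ⟨a - u, ?_, by abel⟩
      simp only [mem_filter, mem_univ, true_and]
      rw [map_sub, ha, hu]; abel
  have h2 : Fintype.card A = ∑ c : B, (univ.filter (fun a => f a = c)).card := by
    rw [← Finset.card_univ]
    exact Finset.card_eq_sum_card_fiberwise (fun a _ => Finset.mem_coe.2 (mem_univ (f a)))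
  rw [h2, Finset.sum_congr rfl (fun c _ => h1 c), Finset.sum_const, Finset.card_univ,
    smul_eq_mul, mul_comm]

/-- the hash as an additive map -/
def hom (p L : ℕ) (a : Fin L → ZMod p) : (Fin (L + 1) → ZMod p) →+ ZMod p where
  toFun := hsh p L a
  map_zero' := by simp [hsh]
  map_add' := by
    intro u v
    simp only [hsh, Pi.add_apply, mul_add, Finset.sum_add_distrib]
    abel

theorem pf_HASH : S_HASH := by
  intro p L hp
  refine ⟨?_, ?_⟩
  · intro a z
    refine card_fiber (hom p L a) ?_ z
    intro s
    refine ⟨Fin.cons s 0, ?_⟩
    show hsh p L a _ = s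
    simp [hsh]
  · intro a a' ha z
    obtain ⟨i, hi⟩ : ∃ i, a i ≠ a' i := by
      by_contra hcon
      push Not at hcon
      exact ha (funext hcon)
    have hd : a i - a' i ≠ 0 := sub_ne_zero.2 hi
    have h := card_fiber ((hom p L a).prod (hom p L a')) ?_ (z, z)
    · rw [Fintype.card_prod] at h
      rw [sq]
      rw [← h]
      congr 2
      ext u
      simp only [mem_filter, mem_univ, true_and, AddMonoidHom.prod_apply, Prod.mk.injEq]
      rfl
    · rintro ⟨s, t⟩
      have hs : ∀ c : Fin L → ZMod p, ∀ y : ZMod p,
          ∑ j, c j * (Pi.single i y : Fin L → ZMod p) j = c i * y := by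
        intro c y
        rw [Finset.sum_eq_single i]
        · simp
        · intro j _ hj
          simp [Pi.single_eq_of_ne hj]
        · intro h; exact absurd (mem_univ i) h
      refine ⟨Fin.cons (s - a i * ((s - t) / (a i - a' i)))
        (Pi.single i ((s - t) / (a i - a' i))), ?_⟩
      refine Prod.ext ?_ ?_
      · show hsh p L a _ = s
        simp only [hsh, Fin.cons_zero, Fin.cons_succ, hs]
        ring
      · show hsh p L a' _ = t
        simp only [hsh, Fin.cons_zero, Fin.cons_succ, hs]
        field_simp
        ring

end Pool.Agent.H78.KX
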